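import Pool.Agent.H47.MED.Stmts

/-!
# MED, module CNE: the energy count
-/

set_option autoImplicit false

namespace Pool.MED.CNE

open Finset Pool.Agent.H98.ABCR Pool.SHA

private theorem coord_pos {v : ℕ × ℕ} (hv : IsTri v) (s : Fin 3) : 0 < coord v s := by
  obtain ⟨ha, hb, -⟩ := hv
  fin_cases s
  · exact ha
  · exact hb
  · exact Nat.add_pos_left ha _

private theorem coord_le (v : ℕ × ℕ) (s : Fin 3) : coord v s ≤ v.1 + v.2 := by
  fin_cases s
  · exact Nat.le_add_right _ _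
  · exact Nat.le_add_left _ _
  · exact le_rfl

private theorem coprime {v : ℕ × ℕ} (hv : IsTri v) {s t : Fin 3} (h : s ≠ t) :
    (coord v s).Coprime (coord v t) := by
  obtain ⟨-, -, hc⟩ := hv
  have h01 : v.1.Coprime v.2 := hc
  have h02 : v.1.Coprime (v.1 + v.2) := by simpa using hc
  have h12 : v.2.Coprime (v.1 + v.2) := by simpa using hc.symm
  fin_cases s <;> fin_cases t
  · exact absurd rfl h
  · exact h01
  · exact h02
  · exact h01.symm
  · exact absurd rfl h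
  · exact h12
  · exact h02.symm
  · exact h12.symm
  · exact absurd rfl h

private theorem not_dvd {v : ℕ × ℕ} (hv : IsTri v) {s t : Fin 3} (h : s ≠ t) {p : ℕ} (hp : p.Prime)
    (hd : p ∣ coord v s) : ¬ p ∣ coord v t := by
  intro h2
  have := Nat.Coprime.eq_one_of_dvd ((coprime hv h).coprime_dvd_left hd) h2
  exact hp.one_lt.ne' this

/-- two coordinates determine the triple; the third one is their sum or difference -/
private theorem sgn (i j k : Fin 3) (hij : i ≠ j) (hik : i ≠ k) (hjk : j ≠ k) :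
    ∃ σ : ℤ, (σ = 1 ∨ σ = -1) ∧
    (∀ v : ℕ × ℕ, (coord v j : ℤ) ∣ (coord v i : ℤ) - σ * coord v k) ∧
    ∀ v v' : ℕ × ℕ, coord v i = coord v' i → coord v k = coord v' k → v = v' := by
  have e : ∀ v : ℕ × ℕ, coord v 0 = v.1 ∧ coord v 1 = v.2 ∧ coord v 2 = v.1 + v.2 :=
    fun v => ⟨rfl, rfl, rfl⟩
  have key : ∀ (i j k : Fin 3) (σ τ : ℤ), (σ = 1 ∨ σ = -1) →
      (∀ v : ℕ × ℕ, (coord v i : ℤ) - σ * coord v k = τ * coord v j) →
      (∀ v v' : ℕ × ℕ, coord v i = coord v' i → coord v k = coord v' k → v = v') →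
      ∃ σ : ℤ, (σ = 1 ∨ σ = -1) ∧
      (∀ v : ℕ × ℕ, (coord v j : ℤ) ∣ (coord v i : ℤ) - σ * coord v k) ∧
      ∀ v v' : ℕ × ℕ, coord v i = coord v' i → coord v k = coord v' k → v = v' := by
    intro i j k σ τ hσ h1 h2
    exact ⟨σ, hσ, fun v => ⟨τ, by rw [h1 v, mul_comm]⟩, h2⟩
  have inj : ∀ v v' : ℕ × ℕ, v.1 = v'.1 → v.2 = v'.2 → v = v' := fun v v' h1 h2 => Prod.ext h1 h2
  fin_cases i <;> fin_cases j <;> fin_cases k <;> first | exact absurd rfl hij | exact absurd rfl hik | exact absurd rfl hjk | skip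
  · refine key 0 1 2 1 (-1) (Or.inl rfl) (fun v => ?_) (fun v v' h1 h2 => ?_)
    · rw [(e v).1, (e v).2.1, (e v).2.2]; push_cast; ring
    · rw [(e v).1, (e v').1] at h1; rw [(e v).2.2, (e v').2.2] at h2
      exact inj v v' h1 (by omega)
  · refine key 0 2 1 (-1) 1 (Or.inr rfl) (fun v => ?_) (fun v v' h1 h2 => ?_)
    · rw [(e v).1, (e v).2.1, (e v).2.2]; push_cast; ring
    · rw [(e v).1, (e v').1] at h1; rw [(e v).2.1, (e v').2.1] at h2
      exact inj v v' h1 h2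
  · refine key 1 0 2 1 (-1) (Or.inl rfl) (fun v => ?_) (fun v v' h1 h2 => ?_)
    · rw [(e v).1, (e v).2.1, (e v).2.2]; push_cast; ring
    · rw [(e v).2.1, (e v').2.1] at h1; rw [(e v).2.2, (e v').2.2] at h2
      exact inj v v' (by omega) h1
  · refine key 1 2 0 (-1) 1 (Or.inr rfl) (fun v => ?_) (fun v v' h1 h2 => ?_)
    · rw [(e v).1, (e v).2.1, (e v).2.2]; push_cast; ring
    · rw [(e v).2.1, (e v').2.1] at h1; rw [(e v).1, (e v').1] at h2
      exact inj v v' h2 h1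
  · refine key 2 0 1 1 1 (Or.inl rfl) (fun v => ?_) (fun v v' h1 h2 => ?_)
    · rw [(e v).1, (e v).2.1, (e v).2.2]; push_cast; ring
    · rw [(e v).2.2, (e v').2.2] at h1; rw [(e v).2.1, (e v').2.1] at h2
      exact inj v v' (by omega) h2
  · refine key 2 1 0 1 1 (Or.inl rfl) (fun v => ?_) (fun v v' h1 h2 => ?_)
    · rw [(e v).1, (e v).2.1, (e v).2.2]; push_cast; ring
    · rw [(e v).2.2, (e v').2.2] at h1; rw [(e v).1, (e v').1] at h2
      exact inj v v' h2 (by omega)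

/-- the data of one triple -/
structure Dat (E : ℕ) (Z : ℝ) (v : ℕ × ℕ) (i j k : Fin 3) (e1 e2 f r A B x1 x2 q : ℕ) : Prop where
  hij : i ≠ j
  hik : i ≠ k
  hjk : j ≠ k
  e1a : 1 ≤ e1
  e1b : e1 ≤ E
  e2a : 1 ≤ e2
  e2b : e2 ≤ E
  fa : 1 ≤ f
  fb : f ≤ E
  ci : coord v i = A * x1 ^ e1 * x2 ^ e2
  ck : coord v k = B * q ^ f
  rp : r.Prime
  rj : r ^ 2 ∣ coord v j
  xp : x2.Prime
  xr : x2 < r
  x1r : x1 ≤ r ^ 2
  qr : q ≤ r ^ 2
  le : (rad A : ℝ) * rad B * r * Real.sqrt (q * (x1 * (x1 + x2))) ≤ Z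

private theorem rad_pos (n : ℕ) : (0:ℝ) < rad n := by
  unfold rad
  exact_mod_cast Finset.prod_pos (fun p hp => (Nat.prime_of_mem_primeFactors hp).pos)

private theorem rad_prime {p : ℕ} (hp : p.Prime) : rad p = p := by
  unfold rad
  rw [hp.primeFactors, Finset.prod_singleton]

/-- one class -/
private theorem fib (hENE : S_ENE) {E : ℕ} {Z : ℝ} (i j k : Fin 3)
    (e1 e2 f r A B a b c : ℕ) (F : Finset (ℕ × ℕ)) (x1 x2 q : ℕ × ℕ → ℕ)
    (hZ : 0 ≤ Z)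
    (hF : ∀ v ∈ F, IsTri v ∧ Dat E Z v i j k e1 e2 f r A B (x1 v) (x2 v) (q v) ∧
      Nat.log 2 (x1 v) = a ∧ Nat.log 2 (x2 v) = b ∧ Nat.log 2 (q v) = c) :
    (F.card : ℝ) ≤ 30 * E * Z * (1 / rad A * (1 / rad B) * (1 / rad r)) := by
  classical
  have rA := rad_pos A
  have rB := rad_pos B
  have rr := rad_pos r
  rcases F.eq_empty_or_nonempty with h0 | ⟨v0, hv0⟩
  · rw [h0, Finset.card_empty, Nat.cast_zero]
    positivity
  obtain ⟨T0, D0, a0, b0, c0⟩ := hF v0 hv0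
  obtain ⟨σ, hσ, hdv, hinj⟩ := sgn i j k D0.hij D0.hik D0.hjk
  have hr := D0.rp
  have hrad : rad r = r := rad_prime hr
  have hr0 : (0:ℝ) < r := by exact_mod_cast hr.pos
  set g : ℕ × ℕ → ℕ × ℕ × ℕ := fun v => (x1 v, x2 v, q v) with hg
  set W := F.image g with hW
  have hcard : W.card = F.card := by
    apply Finset.card_image_of_injOn
    intro v hv v' hv' h
    obtain ⟨-, D, -⟩ := hF v hv
    obtain ⟨-, D', -⟩ := hF v' hv'
    simp only [hg, Prod.mk.injEq] at h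
    apply hinj
    · rw [D.ci, D'.ci, h.1, h.2.1]
    · rw [D.ck, D'.ck, h.2.2]
  have rj : r ∣ coord v0 j := (dvd_pow_self r (by norm_num)).trans D0.rj
  have pos1 : ∀ v ∈ F, 0 < x1 v := by
    intro v hv
    obtain ⟨T, D, -⟩ := hF v hv
    have h1 := coord_pos T i
    rw [D.ci] at h1
    rcases Nat.eq_zero_or_pos (x1 v) with h | h
    · rw [h, zero_pow (by have := D.e1a; omega)] at h1
      simp at h1
    · exact h
  have pos3 : ∀ v ∈ F, 0 < q v := by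
    intro v hv
    obtain ⟨T, D, -⟩ := hF v hv
    have h1 := coord_pos T k
    rw [D.ck] at h1
    rcases Nat.eq_zero_or_pos (q v) with h | h
    · rw [h, zero_pow (by have := D.fa; omega)] at h1
      simp at h1
    · exact h
  have up : ∀ {x y : ℕ}, Nat.log 2 x = y → x ≤ 2 ^ (y + 1) := by
    intro x y h
    rw [← h]
    exact (Nat.lt_pow_succ_log_self (by norm_num) x).le
  have lo : ∀ {x y : ℕ}, 0 < x → Nat.log 2 x = y → 2 ^ (y + 1) ≤ 2 * x := by
    intro x y hx h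
    rw [← h, pow_succ, mul_comm]
    exact Nat.mul_le_mul_left 2 (Nat.pow_log_le_self 2 hx.ne')
  have hA : ¬ (r : ℤ) ∣ (A : ℤ) := by
    intro h
    have h2 : r ∣ A := by exact_mod_cast h
    apply not_dvd T0 D0.hij.symm hr rj
    rw [D0.ci, mul_assoc]
    exact h2.mul_right _
  have hB : ¬ (r : ℤ) ∣ σ * (B : ℤ) := by
    intro h
    have h1 : (r : ℤ) ∣ (B : ℤ) := by
      rcases hσ with hs | hs
      · rw [hs, one_mul] at h
        exact h
      · rw [hs, neg_one_mul] at h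
        exact (dvd_neg).mp h
    have h2 : r ∣ B := by exact_mod_cast h1
    apply not_dvd T0 D0.hjk hr rj
    rw [D0.ck]
    exact h2.mul_right _
  have hP1 : 2 ^ (a + 1) ≤ 4 * r ^ 2 := by
    have h1 := lo (pos1 v0 hv0) a0
    have h2 := D0.x1r
    omega
  have hQ : 2 ^ (c + 1) ≤ 4 * r ^ 2 := by
    have h1 := lo (pos3 v0 hv0) c0
    have h2 := D0.qr
    omega
  have main := hENE r E e1 e2 f (2 ^ (a + 1)) (2 ^ (b + 1)) (2 ^ (c + 1)) A (σ * B) W hr
    D0.e1a D0.e1b D0.e2a D0.e2b D0.fa D0.fb hA hB hP1 hQ (by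
      intro w hw
      obtain ⟨v, hv, rfl⟩ := Finset.mem_image.mp hw
      obtain ⟨T, D, a', b', c'⟩ := hF v hv
      have rj' : r ∣ coord v j := (dvd_pow_self r (by norm_num)).trans D.rj
      refine ⟨up a', up b', up c', D.xp, D.xr, ?_, ?_, ?_⟩
      · intro h
        apply not_dvd T D.hij.symm hr rj'
        rw [D.ci, mul_assoc, mul_left_comm]
        exact (h.trans (dvd_pow_self _ (by have := D.e1a; omega))).mul_right _
      · intro h
        apply not_dvd T D.hjk hr rj'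
        rw [D.ck]
        exact (h.trans (dvd_pow_self _ (by have := D.fa; omega))).mul_left _
      · have h1 := hdv v
        rw [D.ci, D.ck] at h1
        have h2 : (r : ℤ) ^ 2 ∣ (coord v j : ℤ) := by exact_mod_cast D.rj
        have h3 := h2.trans h1
        show (r : ℤ) ^ 2 ∣ (A : ℤ) * (x1 v : ℤ) ^ e1 * (x2 v : ℤ) ^ e2 - σ * B * (q v : ℤ) ^ f
        have e3 : (A : ℤ) * (x1 v : ℤ) ^ e1 * (x2 v : ℤ) ^ e2 - σ * B * (q v : ℤ) ^ f =
            ((A * x1 v ^ e1 * x2 v ^ e2 : ℕ) : ℤ) - σ * ((B * q v ^ f : ℕ) : ℤ) := by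
          push_cast
          rw [mul_assoc σ]
        rw [e3]
        exact h3)
  rw [hcard] at main
  have k1 : ((2 ^ (a + 1) : ℕ) : ℝ) ≤ 2 * x1 v0 := by exact_mod_cast lo (pos1 v0 hv0) a0
  have k2 : ((2 ^ (b + 1) : ℕ) : ℝ) ≤ 2 * x2 v0 := by exact_mod_cast lo D0.xp.pos b0
  have k3 : ((2 ^ (c + 1) : ℕ) : ℝ) ≤ 2 * q v0 := by exact_mod_cast lo (pos3 v0 hv0) c0
  set s : ℝ := Real.sqrt (q v0 * (x1 v0 * (x1 v0 + x2 v0))) with hs
  have h5 : Real.sqrt (((2 ^ (c + 1) : ℕ) : ℝ) * (((2 ^ (a + 1) : ℕ) : ℝ) * (((2 ^ (a + 1) : ℕ) : ℝ) +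
      ((2 ^ (b + 1) : ℕ) : ℝ)))) ≤ 3 * s := by
    have h6 : (3:ℝ) * s = Real.sqrt (9 * (q v0 * (x1 v0 * (x1 v0 + x2 v0)))) := by
      rw [Real.sqrt_mul (by norm_num), hs]
      congr 1
      rw [show (9:ℝ) = 3 ^ 2 by norm_num, Real.sqrt_sq (by norm_num)]
    rw [h6]
    apply Real.sqrt_le_sqrt
    have hx1 : (0:ℝ) ≤ x1 v0 := Nat.cast_nonneg _
    have hx2 : (0:ℝ) ≤ x2 v0 := Nat.cast_nonneg _
    have hq : (0:ℝ) ≤ q v0 := Nat.cast_nonneg _
    calc ((2 ^ (c + 1) : ℕ) : ℝ) * (((2 ^ (a + 1) : ℕ) : ℝ) * (((2 ^ (a + 1) : ℕ) : ℝ) +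
          ((2 ^ (b + 1) : ℕ) : ℝ))) ≤ (2 * q v0) * ((2 * x1 v0) * (2 * x1 v0 + 2 * x2 v0)) := by
          gcongr
      _ = 8 * (q v0 * (x1 v0 * (x1 v0 + x2 v0))) := by ring
      _ ≤ 9 * (q v0 * (x1 v0 * (x1 v0 + x2 v0))) := by
          have : (0:ℝ) ≤ q v0 * (x1 v0 * (x1 v0 + x2 v0)) := by positivity
          linarith
  have h7 : s ≤ Z * (1 / rad A * (1 / rad B) * (1 / rad r)) := by
    have h8 := D0.le
    rw [hrad]
    have e : Z * (1 / (rad A : ℝ) * (1 / rad B) * (1 / (r:ℝ))) = Z / (rad A * rad B * r) := by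
      field_simp
    rw [e, le_div_iff₀ (by positivity), mul_comm]
    exact h8
  calc (F.card : ℝ) ≤ _ := main
    _ ≤ 10 * E * (3 * s) := by
        apply mul_le_mul_of_nonneg_left h5
        positivity
    _ = 30 * E * s := by ring
    _ ≤ 30 * E * (Z * (1 / rad A * (1 / rad B) * (1 / rad r))) := by
        apply mul_le_mul_of_nonneg_left h7
        positivity
    _ = _ := by ring

/-- sum over the classes -/
private theorem card_fib {α β : Type*} [DecidableEq β] (F : Finset α) (g : α → β) (T : Finset β)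
    (hg : ∀ v ∈ F, g v ∈ T) (w : β → ℝ)
    (h : ∀ d ∈ T, ((F.filter (fun v => g v = d)).card : ℝ) ≤ w d) : (F.card : ℝ) ≤ ∑ d ∈ T, w d := by
  rw [Finset.card_eq_sum_card_fiberwise hg, Nat.cast_sum]
  exact Finset.sum_le_sum h

/-- growth of the constants -/
private theorem growth (κ ε C : ℝ) (hκ : 0 < κ) (hε : 0 < ε) (_hC : 1 ≤ C) : ∃ D : ℝ, 1 ≤ D ∧
    ∀ X : ℝ, 1 ≤ X → ∀ h : ℝ, h = max 1 (κ * Real.log X) →
      (3 * h) ^ 3 * Real.exp (C * Real.sqrt h) ^ 3 ≤ D * X ^ ε := by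
  set u : ℝ := ε / (2 * κ) with hu
  have hu0 : 0 < u := by positivity
  refine ⟨max 1 (27 * (6 / u ^ 3) * Real.exp (9 * C ^ 2 / (4 * u) + 2 * u)), le_max_left _ _, ?_⟩
  intro X hX h hh
  have hh1 : 1 ≤ h := by rw [hh]; exact le_max_left _ _
  have hlX : 0 ≤ Real.log X := Real.log_nonneg hX
  have hhX : h ≤ 1 + κ * Real.log X := by
    rw [hh]
    apply max_le
    · have : 0 ≤ κ * Real.log X := by positivity
      linarith
    · linarith
  have h1 : h ^ 3 ≤ 6 / u ^ 3 * Real.exp (u * h) := by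
    have h2 := Real.pow_div_factorial_le_exp (u * h) (by positivity) 3
    have h3 : ((Nat.factorial 3 : ℕ) : ℝ) = 6 := by norm_num [Nat.factorial]
    rw [h3, mul_pow] at h2
    have h4 : h ^ 3 = 6 / u ^ 3 * (u ^ 3 * h ^ 3 / 6) := by
      field_simp
    rw [h4]
    exact mul_le_mul_of_nonneg_left h2 (by positivity)
  have h5 : 3 * (C * Real.sqrt h) ≤ u * h + 9 * C ^ 2 / (4 * u) := by
    have h6 : 0 ≤ (Real.sqrt u * Real.sqrt h - 3 * C / (2 * Real.sqrt u)) ^ 2 := sq_nonneg _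
    have h7 : (Real.sqrt u) ^ 2 = u := Real.sq_sqrt hu0.le
    have h8 : (Real.sqrt h) ^ 2 = h := Real.sq_sqrt (by linarith)
    have h9 : 0 < Real.sqrt u := Real.sqrt_pos.mpr hu0
    have h10 : (Real.sqrt u * Real.sqrt h - 3 * C / (2 * Real.sqrt u)) ^ 2 =
        u * h - 3 * (C * Real.sqrt h) + 9 * C ^ 2 / (4 * u) := by
      have e1 : (Real.sqrt u * Real.sqrt h - 3 * C / (2 * Real.sqrt u)) ^ 2 =
          (Real.sqrt u) ^ 2 * (Real.sqrt h) ^ 2 - 3 * (C * Real.sqrt h) * (Real.sqrt u / Real.sqrt u) +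
            9 * C ^ 2 / (4 * (Real.sqrt u) ^ 2) := by
        field_simp
        ring
      rw [e1, h7, h8, div_self h9.ne', mul_one]
    linarith
  have h11 : Real.exp (C * Real.sqrt h) ^ 3 ≤ Real.exp (u * h + 9 * C ^ 2 / (4 * u)) := by
    rw [← Real.exp_nat_mul]
    apply Real.exp_le_exp.mpr
    push_cast
    exact h5
  have h12 : Real.exp (2 * u * h) ≤ Real.exp (2 * u) * X ^ ε := by
    rw [Real.rpow_def_of_pos (by linarith), ← Real.exp_add]
    apply Real.exp_le_exp.mpr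
    have e1 : 2 * u * (κ * Real.log X) = Real.log X * ε := by
      rw [hu]
      field_simp
    have h13 : 2 * u * h ≤ 2 * u * (1 + κ * Real.log X) :=
      mul_le_mul_of_nonneg_left hhX (by positivity)
    linarith
  have hXe : 0 ≤ X ^ ε := by positivity
  calc (3 * h) ^ 3 * Real.exp (C * Real.sqrt h) ^ 3 = 27 * h ^ 3 * Real.exp (C * Real.sqrt h) ^ 3 := by ring
    _ ≤ 27 * (6 / u ^ 3 * Real.exp (u * h)) * Real.exp (u * h + 9 * C ^ 2 / (4 * u)) := by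
        gcongr
    _ = 27 * (6 / u ^ 3) * Real.exp (9 * C ^ 2 / (4 * u)) * Real.exp (2 * u * h) := by
        rw [show 2 * u * h = u * h + u * h by ring, Real.exp_add (u * h) (u * h),
          Real.exp_add (u * h) (9 * C ^ 2 / (4 * u))]
        ring
    _ ≤ 27 * (6 / u ^ 3) * Real.exp (9 * C ^ 2 / (4 * u)) * (Real.exp (2 * u) * X ^ ε) := by
        gcongr
    _ = 27 * (6 / u ^ 3) * Real.exp (9 * C ^ 2 / (4 * u) + 2 * u) * X ^ ε := by
        rw [Real.exp_add]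
        ring
    _ ≤ _ := mul_le_mul_of_nonneg_right (le_max_right _ _) hXe

end Pool.MED.CNE

namespace Pool.MED

open Finset Pool.Agent.H98.ABCR Pool.SHA CNE

theorem cne_thm (hENE : S_ENE) (hSRD : S_SRD) : S_CNE := by
  classical
  intro E κ ε hκ hε
  obtain ⟨C, hC, hS⟩ := hSRD
  obtain ⟨D, hD, hgr⟩ := growth κ ε C hκ hε hC
  refine ⟨27 * (E + 1) ^ 3 * (30 * E) * D + 1, by
    have : (0:ℝ) ≤ 27 * (E + 1) ^ 3 * (30 * E) * D := by positivity
    linarith, ?_⟩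
  intro X Z F hX hZ hF
  set h : ℝ := max 1 (κ * Real.log X) with hh
  have hh1 : 1 ≤ h := le_max_left _ _
  set N := ⌊Real.exp h⌋₊ with hN
  set M := Nat.log 2 N with hM
  -- choice of the data
  have hdat : ∀ v : ℕ × ℕ, ∃ (i j k : Fin 3) (e1 e2 f r A B x1 x2 q : ℕ), v ∈ F →
      Dat E Z v i j k e1 e2 f r A B x1 x2 q := by
    intro v
    by_cases hv : v ∈ F
    · obtain ⟨-, -, -, i, j, k, e1, e2, f, x1, x2, q, r, A, B, h1, h2, h3, h4, h5, h6, h7, h8, h9,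
        h10, h11, h12, h13, h14, h15, h16, h17, h18⟩ := hF v hv
      exact ⟨i, j, k, e1, e2, f, r, A, B, x1, x2, q, fun _ => ⟨h1, h2, h3, h4, h5, h6, h7, h8, h9,
        h10, h11, h12, h13, h14, h15, h16, h17, h18⟩⟩
    · exact ⟨0, 0, 0, 0, 0, 0, 0, 0, 0, 0, 0, 0, fun h' => absurd h' hv⟩
  choose i j k e1 e2 f r A B x1 x2 q hd using hdat
  set g : ℕ × ℕ → ((Fin 3 × Fin 3 × Fin 3) × (ℕ × ℕ × ℕ) × (ℕ × ℕ × ℕ)) × (ℕ × ℕ × ℕ) := fun v =>
    (((i v, j v, k v), (e1 v, e2 v, f v),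
      (Nat.log 2 (x1 v), Nat.log 2 (x2 v), Nat.log 2 (q v))), (A v, B v, r v)) with hg
  set T : Finset (((Fin 3 × Fin 3 × Fin 3) × (ℕ × ℕ × ℕ) × (ℕ × ℕ × ℕ)) × (ℕ × ℕ × ℕ)) :=
    (univ ×ˢ (range (E + 1) ×ˢ range (E + 1) ×ˢ range (E + 1)) ×ˢ
      (range (M + 1) ×ˢ range (M + 1) ×ˢ range (M + 1))) ×ˢ (Icc 1 N ×ˢ Icc 1 N ×ˢ Icc 1 N) with hT
  have hlt : ∀ v ∈ F, ∀ s, 0 < coord v s ∧ coord v s ≤ N := by
    intro v hv s
    obtain ⟨T1, -, h3, -⟩ := hF v hv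
    refine ⟨CNE.coord_pos T1 s, (CNE.coord_le v s).trans ?_⟩
    rw [hN]
    apply Nat.le_floor
    have hpos : (0 : ℝ) < ((v.1 + v.2 : ℕ) : ℝ) := by exact_mod_cast (by have := T1.1; omega : 0 < v.1 + v.2)
    have h4 : Real.log ((v.1 + v.2 : ℕ) : ℝ) ≤ h := le_trans h3 (le_max_right _ _)
    exact (Real.log_le_iff_le_exp hpos).1 h4
  have hgT : ∀ v ∈ F, g v ∈ T := by
    intro v hv
    have D := hd v hv
    obtain ⟨ci, ci'⟩ := hlt v hv (i v)
    obtain ⟨cj, cj'⟩ := hlt v hv (j v)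
    obtain ⟨ck, ck'⟩ := hlt v hv (k v)
    have q1 : ∀ {a c : ℕ}, a ∣ c → 0 < c → c ≤ N → 1 ≤ a ∧ a ≤ N := by
      intro a c hac hc hcN
      exact ⟨Nat.pos_of_dvd_of_pos hac hc, (Nat.le_of_dvd hc hac).trans hcN⟩
    have r1 : r v ∣ coord v (j v) := (dvd_pow_self _ (by norm_num)).trans D.rj
    have A1 : A v ∣ coord v (i v) := ⟨x1 v ^ e1 v * x2 v ^ e2 v, by rw [D.ci]; ring⟩
    have X1 : x1 v ∣ coord v (i v) := by
      rw [D.ci]
      exact ((dvd_pow_self _ (by have := D.e1a; omega)).mul_left _).mul_right _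
    have X2 : x2 v ∣ coord v (i v) := by
      rw [D.ci]
      exact (dvd_pow_self _ (by have := D.e2a; omega)).mul_left _
    have B1 : B v ∣ coord v (k v) := ⟨q v ^ f v, by rw [D.ck]⟩
    have Q1 : q v ∣ coord v (k v) := by
      rw [D.ck]
      exact (dvd_pow_self _ (by have := D.fa; omega)).mul_left _
    have lg : ∀ {a : ℕ}, a ≤ N → Nat.log 2 a < M + 1 := fun ha => Nat.lt_succ_of_le (Nat.log_mono_right ha)
    simp only [hT, hg, Finset.mem_product, Finset.mem_univ, Finset.mem_range, Finset.mem_Icc, true_and]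
    exact ⟨⟨⟨Nat.lt_succ_of_le D.e1b, Nat.lt_succ_of_le D.e2b, Nat.lt_succ_of_le D.fb⟩,
      lg (q1 X1 ci ci').2, lg (q1 X2 ci ci').2, lg (q1 Q1 ck ck').2⟩,
      q1 A1 ci ci', q1 B1 ck ck', q1 r1 cj cj'⟩
  have key := CNE.card_fib F g T hgT
    (fun d => 30 * E * Z * (1 / rad d.2.1 * (1 / rad d.2.2.1) * (1 / rad d.2.2.2))) (by
      intro d _
      obtain ⟨⟨⟨i0, j0, k0⟩, ⟨e10, e20, f0⟩, ⟨a0, b0, c0⟩⟩, ⟨A0, B0, r0⟩⟩ := d
      apply CNE.fib hENE i0 j0 k0 e10 e20 f0 r0 A0 B0 a0 b0 c0 _ x1 x2 q hZ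
      intro v hv
      obtain ⟨hvF, hvg⟩ := Finset.mem_filter.mp hv
      simp only [hg, Prod.mk.injEq] at hvg
      obtain ⟨⟨⟨u1, u2, u3⟩, ⟨u4, u5, u6⟩, ⟨u7, u8, u9⟩⟩, ⟨u10, u11, u12⟩⟩ := hvg
      refine ⟨(hF v hvF).1, ?_, u7, u8, u9⟩
      have D := hd v hvF
      rw [u1, u2, u3, u4, u5, u6, u10, u11, u12] at D
      exact D)
  have hsum : ∑ d ∈ T, 30 * E * Z * (1 / (rad d.2.1 : ℝ) * (1 / rad d.2.2.1) * (1 / rad d.2.2.2)) =
      (27 * (E + 1) ^ 3 * (M + 1) ^ 3) * (30 * E * Z * (∑ n ∈ Icc 1 N, (1 : ℝ) / rad n) ^ 3) := by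
    rw [hT, Finset.sum_product]
    simp only [Finset.sum_const, nsmul_eq_mul, Finset.card_product, Finset.card_univ, Finset.card_range,
      Fintype.card_prod, Fintype.card_fin]
    rw [← Finset.mul_sum]
    have e1 : ∑ x ∈ Icc 1 N ×ˢ Icc 1 N ×ˢ Icc 1 N,
        (1 / (rad x.1 : ℝ) * (1 / rad x.2.1) * (1 / rad x.2.2)) =
        (∑ n ∈ Icc 1 N, (1 : ℝ) / rad n) ^ 3 := by
      rw [Finset.sum_product]
      simp only [Finset.sum_product]
      rw [pow_succ, sq, Finset.sum_mul_sum, Finset.sum_mul]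
      apply Finset.sum_congr rfl
      intro x _
      rw [Finset.sum_mul]
      apply Finset.sum_congr rfl
      intro y _
      rw [Finset.mul_sum]
    rw [e1]
    push_cast
    ring
  have hS3 : (∑ n ∈ Icc 1 N, (1 : ℝ) / rad n) ^ 3 ≤ Real.exp (C * Real.sqrt h) ^ 3 :=
    pow_le_pow_left₀ (Finset.sum_nonneg (fun n _ => by positivity)) (hS h hh1) 3
  have hM3 : ((M:ℝ) + 1) ^ 3 ≤ (3 * h) ^ 3 := by
    apply pow_le_pow_left₀ (by positivity)
    have h1 : (M:ℝ) ≤ 2 * h := by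
      have hN1 : 1 ≤ N := by
        rw [hN]
        apply Nat.le_floor
        rw [Nat.cast_one]
        exact Real.one_le_exp (by linarith)
      have h2 : (2:ℝ) ^ M ≤ Real.exp h := by
        have h3 : 2 ^ M ≤ N := Nat.pow_log_le_self 2 (by omega)
        have h4 : ((2 ^ M : ℕ) : ℝ) ≤ N := by exact_mod_cast h3
        have h5 : (N:ℝ) ≤ Real.exp h := Nat.floor_le (Real.exp_pos _).le
        push_cast at h4
        linarith
      have h3 : (M:ℝ) * Real.log 2 ≤ h := by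
        have h4 := Real.log_le_log (by positivity) h2
        rw [Real.log_pow, Real.log_exp] at h4
        exact h4
      have h5 : (1/2 : ℝ) ≤ Real.log 2 := by
        have := Real.log_two_gt_d9
        linarith
      have h6 : (M:ℝ) * (1/2) ≤ M * Real.log 2 := mul_le_mul_of_nonneg_left h5 (Nat.cast_nonneg M)
      linarith
    linarith
  have hg3 := hgr X hX h hh
  calc (F.card : ℝ) ≤ _ := key
    _ = _ := hsum
    _ ≤ (27 * (E + 1) ^ 3 * (3 * h) ^ 3) * (30 * E * Z * Real.exp (C * Real.sqrt h) ^ 3) := by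
        gcongr
    _ = (27 * (E + 1) ^ 3 * (30 * E)) * Z * ((3 * h) ^ 3 * Real.exp (C * Real.sqrt h) ^ 3) := by ring
    _ ≤ (27 * (E + 1) ^ 3 * (30 * E)) * Z * (D * X ^ ε) := by gcongr
    _ = (27 * (E + 1) ^ 3 * (30 * E) * D) * X ^ ε * Z := by ring
    _ ≤ (27 * (E + 1) ^ 3 * (30 * E) * D + 1) * X ^ ε * Z := by
        have : 0 ≤ X ^ ε * Z := by positivity
        nlinarith

end Pool.MED
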